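import Pool.Agent.E8helper20.CT3.Stm
import Pool.Agent.Y696.CT.LQ

/-!
# Project CT3: the `L`-function of `y² + 3 D y = x³`
-/

set_option autoImplicit false
set_option linter.unusedVariables false

namespace Pool.Agent.E8helper2.CT3

open IsDedekindDomain
open Pool.Agent.E8helper20.CT3
open Pool.Agent.Y703.CT
open Pool.Agent.Y692.QS hiding chi
open Pool.Agent.Y715.T.Rec (exists_p cs)
open Pool.Agent.Y715.T.RecG (Pq)
open Pool.Agent.Y696.CT (fI fI_span fI_prim fI_bot fI_top gn span_gn ns_assoc ns_prim ns_of_assoc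
  ns_of_prim ep_ndvd hasSum_fI bl bl_dvd bl_hp hp eq_hp gn_prime gn_three dvd_delta ap_cube ap_bad
  cube_three cube_two chD_bad chD_prime chD_mul chD_one exists_pq inert pq_star int_ndvd im_star_ne
  cs_star_int cs_inert ap_one tw_add cpow_two nr_cpow regroup cs_mul')
open scoped Classical

lemma prim_iff {α : Ei} (h : (3 : Ei) ∣ α - 1) : ∃ x y : ℤ, α.re = 1 + 3 * x ∧ α.im = 3 * y := by
  have h3' : (((3 : ℤ) : Ei)) ∣ α - 1 := by exact_mod_cast h
  obtain ⟨⟨x, hx⟩, ⟨y, hy⟩⟩ := int_dvd.1 h3'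
  rw [QuadraticAlgebra.re_sub, QuadraticAlgebra.re_one] at hx
  rw [QuadraticAlgebra.im_sub, QuadraticAlgebra.im_one, sub_zero] at hy
  exact ⟨x, y, by linarith, hy⟩

lemma yy_of {α : Ei} {y : ℤ} (h : α.im = 3 * y) : yy α = (y : ZMod 3) := by
  unfold yy
  rw [h, Int.mul_ediv_cancel_left _ (by norm_num)]

lemma yy_mul {α β : Ei} (ha : (3 : Ei) ∣ α - 1) (hb : (3 : Ei) ∣ β - 1) :
    yy (α * β) = yy α + yy β := by
  obtain ⟨x, y, hx, hy⟩ := prim_iff ha
  obtain ⟨u, v, hu, hv⟩ := prim_iff hb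
  have h1 : (α * β).im = 3 * (v + y + 3 * (x * v + y * u - y * v)) := by
    rw [mul_im, hx, hy, hu, hv]
    ring
  rw [yy_of h1, yy_of hy, yy_of hv]
  push_cast
  have h3 : (3 : ZMod 3) = 0 := by decide
  rw [h3]
  ring

lemma yy_one : yy 1 = 0 := by
  unfold yy
  decide

lemma fI_mul' {g : Ei → ℂ}
    (hm : ∀ a b, (3 : Ei) ∣ a - 1 → (3 : Ei) ∣ b - 1 → g (a * b) = g a * g b) (I J : Ideal Ei) :
    fI g (I * J) = fI g I * fI g J := by
  have h3 : Prime (3 : ℤ) := Int.prime_three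
  rw [← span_gn I, ← span_gn J, Ideal.span_singleton_mul_span_singleton, fI_span, fI_span, fI_span,
    nr_mul, ns_mul]
  have h4 : (3 : ℤ) ∣ nr (gn I) * nr (gn J) ↔ (3 : ℤ) ∣ nr (gn I) ∨ (3 : ℤ) ∣ nr (gn J) := h3.dvd_mul
  by_cases h1 : (3 : ℤ) ∣ nr (gn I)
  · rw [if_pos (h4.2 (Or.inl h1)), if_pos h1, zero_mul]
  · by_cases h2 : (3 : ℤ) ∣ nr (gn J)
    · rw [if_pos (h4.2 (Or.inr h2)), if_pos h2, mul_zero]
    · rw [if_neg (fun h => (h4.1 h).elim h1 h2), if_neg h1, if_neg h2, hm _ _ (ns_prim h1) (ns_prim h2)]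

/-- the Euler product over the primes of the Eisenstein integers -/
theorem hasProd_Ei' {g : Ei → ℂ} (h1 : g 1 = 1)
    (hm : ∀ a b, (3 : Ei) ∣ a - 1 → (3 : Ei) ∣ b - 1 → g (a * b) = g a * g b) {a : ℂ}
    (h : HasSum (fun α : {α : Ei // (3 : Ei) ∣ α - 1} => g α) a) :
    HasProd (fun P : HeightOneSpectrum Ei => (1 - fI g P.asIdeal)⁻¹) a := by
  have h2 := hasSum_fI h
  have h3 := Pool.Agent.Y696.hasProd_ideal (fI g) (fI_bot g) (fI_top h1) (fI_mul' hm) h2.summable
  rwa [h2.tsum_eq] at h3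

section

variable {J : Type} [Fintype J] {π : J → Ei} {e : J → ZMod 3}

/-- the summand -/
noncomputable def gt (π : J → Ei) (e : J → ZMod 3) (s : ℂ) (α : Ei) : ℂ :=
  toC α * (chD π e α * toC w ^ (-yy α).val) * ((nr α : ℤ) : ℂ) ^ (-s)

lemma gt_one (hpq : ∀ j, Pq (π j)) (e : J → ZMod 3) (s : ℂ) : gt π e s 1 = 1 := by
  unfold gt
  rw [chD_one hpq, nr_one, map_one, Int.cast_one, Complex.one_cpow, mul_one, yy_one, neg_zero,
    ZMod.val_zero, pow_zero, mul_one, mul_one]

lemma gt_mul (hpq : ∀ j, Pq (π j)) (e : J → ZMod 3) (s : ℂ) (α β : Ei) (ha : (3 : Ei) ∣ α - 1)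
    (hb : (3 : Ei) ∣ β - 1) : gt π e s (α * β) = gt π e s α * gt π e s β := by
  unfold gt
  rw [chD_mul hpq, map_mul, nr_cpow, yy_mul ha hb, neg_add, tw_add]
  ring

/-- the character at a prime of good reduction -/
lemma ch3 (hrec : S_REC) (hsup : S_SUP) {D : ℤ} (hdt : Dt π e)
    (hD : (D : Ei) = pD π e ∨ (D : Ei) = -pD π e) {ρ : Ei} (hρ : Pq ρ) (hnd : ¬ ρ ∣ ((3 * D : ℤ) : Ei)) :
    chD π (fun j => -e j) ρ * toC w ^ (-yy ρ).val = toC w ^ (-cs ρ ((3 * D : ℤ) : Ei)).val := by
  have h1 : ((3 * D : ℤ) : Ei) = 3 * (D : Ei) := by push_cast; ring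
  rw [h1] at hnd ⊢
  have h2 : ¬ ρ ∣ (D : Ei) := fun h => hnd (Dvd.dvd.mul_left h _)
  rw [chD_prime hrec hdt hD hρ h2, ← tw_add, ← hsup ρ hρ, cs_mul' hρ hρ.norm h2, neg_add, add_comm]

/-- the local factors -/
theorem factor3 (hrec : S_REC) (hsup : S_SUP) {D : ℤ} (hdt : Dt π e)
    (hD : (D : Ei) = pD π e ∨ (D : Ei) = -pD π e) (s : ℂ) (p : Nat.Primes) :
    HasProd (fun P : {P : HeightOneSpectrum Ei // bl P = p} =>
      (1 - fI (gt π (fun j => -e j) s) P.1.asIdeal)⁻¹)
      ((1 - (Pool.Agent.W97.MT.ap (WD (3 * D)) p : ℂ) * ((p : ℕ) : ℂ) ^ (-s) +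
      (if ((p : ℕ) : ℤ) ∣ (WD (3 * D)).Δ then 0 else ((p : ℕ) : ℂ) ^ (1 - 2 * s)))⁻¹) := by
  have hfact : Fact (p : ℕ).Prime := ⟨p.2⟩
  have hpp : Prime ((p : ℕ) : ℤ) := Nat.prime_iff_prime_int.1 p.2
  set g := gt π (fun j => -e j) s with hg
  by_cases hbad : ((p : ℕ) : ℤ) ∣ (WD (3 * D)).Δ
  · -- bad primes
    rw [if_pos hbad, add_zero]
    have hbad' : (p : ℕ) = 3 ∨ ((p : ℕ) : ℤ) ∣ D := by
      rcases (dvd_delta p.2 (3 * D)).1 hbad with h | h
      · exact Or.inl h
      · rcases hpp.dvd_or_dvd h with h1 | h1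
        · left
          have h2 : (p : ℕ) ∣ 3 := by exact_mod_cast h1
          exact (Nat.prime_dvd_prime_iff_eq p.2 Nat.prime_three).1 h2
        · exact Or.inr h1
    have hap : Pool.Agent.W97.MT.ap (WD (3 * D)) p = 0 := by
      rcases hbad' with h | h
      · rw [h]
        exact ap_cube cube_three (3 * D)
      · exact ap_bad (Dvd.dvd.mul_left h _)
    rw [hap, Int.cast_zero, zero_mul, sub_zero, inv_one]
    refine hasProd_one.congr_fun fun P => ?_
    have hz : fI g P.1.asIdeal = 0 := by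
      unfold fI
      by_cases h3 : (3 : ℤ) ∣ nr (gn P.1.asIdeal)
      · rw [if_pos h3]
      · rw [if_neg h3]
        have hPp : gn P.1.asIdeal ∣ (((p : ℕ) : Ei)) := by
          have := bl_dvd P.1
          rwa [P.2] at this
        rcases hbad' with h | h
        · rw [h] at hPp
          exact absurd (gn_three P.1 hPp) h3
        · have hPD : ns (gn P.1.asIdeal) ∣ (D : Ei) := by
            refine dvd_trans (ns_assoc h3).dvd (dvd_trans hPp ?_)
            have := int_dvd_int.2 h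
            rwa [Int.cast_natCast] at this
          rw [hg]
          unfold gt
          rw [chD_bad ((ns_assoc h3).symm.prime (gn_prime P.1)) hdt hD hPD, zero_mul, mul_zero,
            zero_mul]
    rw [hz, sub_zero, inv_one]
  · rw [if_neg hbad]
    rw [dvd_delta p.2 (3 * D), not_or] at hbad
    obtain ⟨hp3, hpD⟩ := hbad
    have hm : (p : ℕ) % 3 = 1 ∨ (p : ℕ) % 3 = 2 := by
      have : (p : ℕ) % 3 ≠ 0 := fun h => hp3
        ((Nat.prime_dvd_prime_iff_eq Nat.prime_three p.2).1 (Nat.dvd_of_mod_eq_zero h)).symm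
      omega
    rcases hm with hm | hm
    · -- split primes
      obtain ⟨α, hα, hnα⟩ := exists_pq p.2 hm
      have hα' := pq_star hα
      have hprod : α * star α = (((p : ℕ) : ℕ) : Ei) := by
        rw [mul_star, hnα, Int.cast_natCast]
      have d1 : α ∣ (((p : ℕ) : Ei)) := ⟨star α, hprod.symm⟩
      have d2 : star α ∣ (((p : ℕ) : Ei)) := ⟨α, by rw [mul_comm, hprod]⟩
      set P1 : {P : HeightOneSpectrum Ei // bl P = p} := ⟨hp α hα.prime, bl_hp hα.prime p d1⟩
      set P2 : {P : HeightOneSpectrum Ei // bl P = p} :=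
        ⟨hp (star α) hα'.prime, bl_hp hα'.prime p d2⟩
      have hne : P1 ≠ P2 := by
        intro h
        have h1 : (Ideal.span {α} : Ideal Ei) = Ideal.span {star α} :=
          congrArg HeightOneSpectrum.asIdeal (congrArg Subtype.val h)
        have h2 := (ns_of_assoc (Ideal.span_singleton_eq_span_singleton.1 h1)).1
        rw [ns_of_prim hα.three, ns_of_prim hα'.three] at h2
        exact im_star_ne p.2 hnα h2.symm
      have hall : ∀ P : {P : HeightOneSpectrum Ei // bl P = p}, P = P1 ∨ P = P2 := by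
        intro P
        have h1 : gn P.1.asIdeal ∣ α * star α := by
          rw [hprod]
          have := bl_dvd P.1
          rwa [P.2] at this
        rcases (gn_prime P.1).dvd_or_dvd h1 with h | h
        · exact Or.inl (Subtype.ext (eq_hp hα.prime P.1 h))
        · exact Or.inr (Subtype.ext (eq_hp hα'.prime P.1 h))
      have hP := hasProd_prod_of_ne_finset_one (L := .unconditional _) (s := {P1, P2})
        (f := fun P : {P : HeightOneSpectrum Ei // bl P = p} => (1 - fI g P.1.asIdeal)⁻¹)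
        (fun P hP => by
          exfalso
          apply hP
          rw [Finset.mem_insert, Finset.mem_singleton]
          exact hall P)
      rw [Finset.prod_pair hne] at hP
      have v1 : fI g P1.1.asIdeal = g α := fI_prim g hα.three
      have v2 : fI g P2.1.asIdeal = g (star α) := fI_prim g hα'.three
      rw [v1, v2] at hP
      refine Eq.mp ?_ hP
      congr 1
      have hnd : ¬ α ∣ ((3 * D : ℤ) : Ei) := int_ndvd hnα hpD
      have hnd' : ¬ star α ∣ ((3 * D : ℤ) : Ei) := int_ndvd (by rw [nr_star, hnα]) hpD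
      have c1 : chD π (fun j => -e j) α * toC w ^ (-yy α).val =
          toC w ^ (-cs α ((3 * D : ℤ) : Ei)).val := ch3 hrec hsup hdt hD hα hnd
      have c2 : chD π (fun j => -e j) (star α) * toC w ^ (-yy (star α)).val =
          toC w ^ (cs α ((3 * D : ℤ) : Ei)).val := by
        rw [ch3 hrec hsup hdt hD hα' hnd', cs_star_int hα hnd, neg_neg]
      have hap := congrArg toC (ap_one hα hnα hp3 (by
        rintro h
        rw [h] at hm
        norm_num at hm) hpD)
      rw [map_intCast, map_add, star_mul', map_mul, map_mul] at hap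
      have hst : star (w ^ (-cs α ((3 * D : ℤ) : Ei)).val : Ei) =
          w ^ (cs α ((3 * D : ℤ) : Ei)).val := by
        generalize cs α ((3 * D : ℤ) : Ei) = c
        revert c
        decide
      rw [hst, map_pow, map_pow] at hap
      have hww : toC w ^ (-cs α ((3 * D : ℤ) : Ei)).val * toC w ^ (cs α ((3 * D : ℤ) : Ei)).val = 1 := by
        rw [← tw_add, neg_add_cancel, ZMod.val_zero, pow_zero]
      have hpC : toC α * toC (star α) = ((p : ℕ) : ℂ) := by
        rw [← map_mul, hprod, map_natCast]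
      rw [← mul_inv, hap, cpow_two p.2, hg]
      unfold gt
      rw [nr_star, hnα, c1, c2, Int.cast_natCast]
      congr 1
      set A := toC w ^ (-cs α ((3 * D : ℤ) : Ei)).val
      set B := toC w ^ (cs α ((3 * D : ℤ) : Ei)).val
      set X := (((p : ℕ)) : ℂ) ^ (-s)
      linear_combination (X * X) * (A * B) * hpC + (X * X) * ((p : ℕ) : ℂ) * hww
    · -- inert primes
      have hα := inert p.2 hm
      have d1 : -(((p : ℕ) : Ei)) ∣ (((p : ℕ) : Ei)) := neg_dvd.2 dvd_rfl
      set P1 : {P : HeightOneSpectrum Ei // bl P = p} :=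
        ⟨hp (-(((p : ℕ) : Ei))) hα.prime, bl_hp hα.prime p d1⟩
      have hall : ∀ P : {P : HeightOneSpectrum Ei // bl P = p}, P = P1 := by
        intro P
        have h1 : gn P.1.asIdeal ∣ -(((p : ℕ) : Ei)) := by
          rw [dvd_neg]
          have := bl_dvd P.1
          rwa [P.2] at this
        exact Subtype.ext (eq_hp hα.prime P.1 h1)
      have hP := hasProd_prod_of_ne_finset_one (L := .unconditional _) (s := {P1})
        (f := fun P : {P : HeightOneSpectrum Ei // bl P = p} => (1 - fI g P.1.asIdeal)⁻¹)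
        (fun P hP => by
          exfalso
          apply hP
          rw [Finset.mem_singleton]
          exact hall P)
      rw [Finset.prod_singleton] at hP
      have v1 : fI g P1.1.asIdeal = g (-(((p : ℕ) : Ei))) := fI_prim g hα.three
      rw [v1] at hP
      refine Eq.mp ?_ hP
      congr 1
      have hnd : ¬ -(((p : ℕ) : Ei)) ∣ ((3 * D : ℤ) : Ei) := by
        rw [neg_dvd]
        intro h
        apply hpD
        rw [← int_dvd_int, Int.cast_natCast]
        exact h
      have c1 : chD π (fun j => -e j) (-(((p : ℕ) : Ei))) * toC w ^ (-yy (-(((p : ℕ) : Ei)))).val =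
          1 := by
        rw [ch3 hrec hsup hdt hD hα hnd, cs_inert hm hα hpD, neg_zero, ZMod.val_zero, pow_zero]
      rw [ap_cube (cube_two hm) (3 * D), cpow_two p.2, hg]
      unfold gt
      rw [c1, nr_neg, nr_nat, map_neg, map_natCast]
      congr 1
      have h0 : (0 : ℝ) ≤ (((p : ℕ)) : ℝ) := Nat.cast_nonneg _
      have h2 := Complex.mul_cpow_ofReal_nonneg h0 h0 (-s)
      rw [Complex.ofReal_natCast] at h2
      push_cast
      rw [pow_two, h2]
      ring

end

/-- CT3-LQ -/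
theorem t_LQ3 : S_LQ3 := by
  intro hrec hsup D _ J _ π e hdt hD F hF
  refine ⟨hF.1, fun s hs => ?_⟩
  have h1 : HasSum (fun α : {α : Ei // (3 : Ei) ∣ α - 1} => gt π (fun j => -e j) s α) (F s) :=
    hF.2 s hs
  have h2 := hasProd_Ei' (gt_one hdt.pq _ s) (gt_mul hdt.pq _ s) h1
  have hD' : (((D : ℕ) : ℤ) : Ei) = pD π e ∨ (((D : ℕ) : ℤ) : Ei) = -pD π e := by
    rwa [Int.cast_natCast]
  have h3 := regroup h2 fun p => factor3 hrec hsup hdt hD' s p
  have h4 : ((3 * D : ℕ) : ℤ) = 3 * ((D : ℕ) : ℤ) := by push_cast; ring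
  rw [h4]
  exact h3

end Pool.Agent.E8helper2.CT3
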