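import Pool.Agent.E8helper20.CT3.Stm
import Pool.Agent.Y696.CT.LQ

/-!
# Project CT3: the supplementary law for `3`
-/

set_option autoImplicit false
set_option linter.unusedVariables false

namespace Pool.Agent.E8helper2.CT3

open Pool.Agent.E8helper20.CT3
open Pool.Agent.Y703.CT
open Pool.Agent.Y692.QS hiding chi
open Pool.Agent.Y715.T.Rec (cs nn exists_p nr_of_assoc)
open Pool.Agent.Y715.T.RecG (Pq cs_comm cs_neg cs_congr cs_spec cs_one cs_neg_one)
open Pool.Agent.Y696.CT (exists_pq inert cs_star_int pq_star cs_inert cs_mul' exists_pi int_ndvd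
  ep_ndvd ns_assoc ns_of_assoc ns_of_prim)
open scoped Classical

/-- the symbol of `ω` -/
lemma cs_w {π : Ei} (h : Pq π) : cs π w = (nn π : ZMod 3) := by
  apply Pool.Agent.Y715.T.RecG.cs_of h.prime h.norm
  have e : (w : Ei) ^ ((nn π : ZMod 3)).val = w ^ nn π := by
    rw [ZMod.val_natCast]
    conv_rhs => rw [← Nat.div_add_mod (nn π) 3, pow_add, pow_mul, w_cube, one_pow, one_mul]
  rw [e, sub_self]
  exact dvd_zero _

lemma ndvd_w {π : Ei} (h : Pq π) : ¬ π ∣ w := fun h1 =>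
  h.prime.not_isUnit (isUnit_of_dvd_unit h1 (isUnit_iff.2 (by decide)))

lemma ndvd_of_nr {π ρ : Ei} (h : Pq π) (h' : Pq ρ) (hne : nr π ≠ nr ρ) : ¬ π ∣ ρ := fun h1 =>
  hne (nr_of_assoc h.prime h'.prime h1)

lemma cs_split {π ρ : Ei} (h : Pq π) (h' : Pq ρ) (hne : nr π ≠ nr ρ) {q : ℕ}
    (hq : nr ρ = q) : cs π (q : Ei) = cs ρ π + cs (star ρ) π := by
  have h1 : (q : Ei) = ρ * star ρ := by rw [mul_star, hq, Int.cast_natCast]
  have h2 := pq_star h'
  have hne' : nr π ≠ nr (star ρ) := by rwa [nr_star]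
  rw [h1, cs_mul' h (ndvd_of_nr h h' hne) (ndvd_of_nr h h2 hne'),
    cs_comm h h' hne, cs_comm h h2 hne']

lemma cs_inr {π : Ei} (h : Pq π) {q : ℕ} (h' : Pq (-(q : Ei))) (hne : nr π ≠ nr (-(q : Ei))) :
    cs π (q : Ei) = cs (-(q : Ei)) π := by
  have h1 : ¬ π ∣ (q : Ei) := fun hd => ndvd_of_nr h h' hne ((dvd_neg).2 hd)
  rw [← cs_neg h.prime h.norm h1, cs_comm h h' hne]

/-- products of rational primes -/
lemma cs_nat {π : Ei} (h : Pq π) (F : ℕ → ZMod 3) (h1 : F 1 = 0)
    (hm : ∀ m n, ¬ 3 ∣ m → ¬ 3 ∣ n → F (m * n) = F m + F n) :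
    ∀ n : ℕ, n ≠ 0 → (∀ q : ℕ, q.Prime → q ∣ n → q ≠ 3 ∧ ¬ π ∣ (q : Ei) ∧ cs π (q : Ei) = F q) →
      ¬ π ∣ (n : Ei) ∧ ¬ 3 ∣ n ∧ cs π (n : Ei) = F n := by
  intro n
  induction n using Nat.recOnMul with
  | zero => intro h0; exact absurd rfl h0
  | one =>
    intro _ _
    refine ⟨?_, by norm_num, ?_⟩
    · intro hd
      rw [Nat.cast_one] at hd
      exact h.prime.not_isUnit (isUnit_of_dvd_one hd)
    · rw [Nat.cast_one, cs_one h.prime h.norm, h1]
  | prime p hp =>
    intro _ hq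
    obtain ⟨h3, h4, h5⟩ := hq p hp dvd_rfl
    refine ⟨h4, ?_, h5⟩
    intro hd
    exact h3 ((Nat.prime_dvd_prime_iff_eq Nat.prime_three hp).1 hd).symm
  | mul a b iha ihb =>
    intro h0 hq
    have ha0 : a ≠ 0 := fun h => h0 (by rw [h, zero_mul])
    have hb0 : b ≠ 0 := fun h => h0 (by rw [h, mul_zero])
    obtain ⟨a1, a2, a3⟩ := iha ha0 fun q hqp hd => hq q hqp (Dvd.dvd.mul_right hd _)
    obtain ⟨b1, b2, b3⟩ := ihb hb0 fun q hqp hd => hq q hqp (Dvd.dvd.mul_left hd _)
    refine ⟨?_, ?_, ?_⟩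
    · intro hd
      rw [Nat.cast_mul] at hd
      rcases h.prime.dvd_or_dvd hd with h | h
      · exact a1 h
      · exact b1 h
    · intro hd
      rcases (Nat.prime_three.dvd_mul).1 hd with h | h
      · exact a2 h
      · exact b2 h
    · rw [Nat.cast_mul, cs_mul' h a1 b1, a3, b3, hm a b a2 b2]

/-- integers -/
lemma cs_natAbs {π : Ei} (h : Pq π) {n : ℤ} (hn : ¬ π ∣ ((n.natAbs : ℕ) : Ei)) :
    cs π (n : Ei) = cs π ((n.natAbs : ℕ) : Ei) := by
  rcases Int.natAbs_eq n with h1 | h1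
  · have h2 : (n : Ei) = ((n.natAbs : ℕ) : Ei) := by
      conv_lhs => rw [h1]
      rw [Int.cast_natCast]
    rw [h2]
  · have h2 : (n : Ei) = -((n.natAbs : ℕ) : Ei) := by
      conv_lhs => rw [h1]
      rw [Int.cast_neg, Int.cast_natCast]
    rw [h2, cs_neg h.prime h.norm hn]

section split

variable {π : Ei} {p : ℕ} (h : Pq π) (hp : p.Prime) (hπ : nr π = p)

include hp hπ in
lemma p_ne_sq {q : ℕ} (hq : q.Prime) : nr π ≠ nr (-(q : Ei)) := by
  rw [hπ, nr_neg, nr_nat]
  intro h1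
  have h2 : p = q ^ 2 := by exact_mod_cast h1
  rw [h2] at hp
  exact Nat.Prime.not_prime_pow (le_refl 2) hp

include h hp hπ in
lemma p_ne_three : p ≠ 3 := by
  intro h3
  have := ep_ndvd h.three
  rw [hπ, h3] at this
  exact this dvd_rfl

include h hπ in
/-- rational primes -/
lemma ndvd_q (hp : p.Prime) {q : ℕ} (hq : q.Prime) (hne : q ≠ p) : ¬ π ∣ (q : Ei) := by
  have hf : Fact p.Prime := ⟨hp⟩
  have h1 : ¬ (p : ℤ) ∣ (q : ℤ) := by
    intro h2
    have h3 : p ∣ q := by exact_mod_cast h2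
    exact hne ((Nat.prime_dvd_prime_iff_eq hp hq).1 h3).symm
  have := int_ndvd hπ h1
  rwa [Int.cast_natCast] at this

include h hp hπ in
/-- the symbol of the conjugate is trivial -/
lemma cs_conj : cs π (star π) = 0 := by
  have hf : Fact p.Prime := ⟨hp⟩
  have h' := pq_star h
  have hπ' : nr (star π) = p := by rw [nr_star, hπ]
  set t : ℤ := 2 * π.re - π.im with ht
  have htr : (t : Ei) = π + star π := by
    apply QuadraticAlgebra.ext
    · rw [QuadraticAlgebra.re_intCast, QuadraticAlgebra.re_add, star_re, ht]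
      simp only [Int.cast_id]
      ring
    · rw [QuadraticAlgebra.im_intCast, QuadraticAlgebra.im_add, star_im]
      ring
  have hns : ¬ π ∣ star π := by
    intro h1
    have h2 := (ns_of_assoc (h.prime.associated_of_dvd h'.prime h1)).1
    rw [ns_of_prim h.three, ns_of_prim h'.three] at h2
    exact Pool.Agent.Y696.CT.im_star_ne hp hπ h2.symm
  have hnt : ¬ π ∣ (t : Ei) := by
    intro h1
    rw [htr] at h1
    apply hns
    have := dvd_sub h1 (dvd_refl π)
    rwa [add_sub_cancel_left] at this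
  have hpt : ¬ (p : ℤ) ∣ t := by
    intro h1
    apply hnt
    have h2 : π ∣ (p : Ei) := ⟨star π, by rw [mul_star, hπ, Int.cast_natCast]⟩
    refine dvd_trans h2 ?_
    have := int_dvd_int.2 h1
    rwa [Int.cast_natCast] at this
  have ht0 : t ≠ 0 := fun h0 => hpt (by rw [h0]; exact dvd_zero _)
  have ht3 : ¬ (3 : ℤ) ∣ t := by
    have h3 := h.three
    have h3' : (((3 : ℤ) : Ei)) ∣ π - 1 := by exact_mod_cast h3
    obtain ⟨h4, h5⟩ := int_dvd.1 h3'
    rw [QuadraticAlgebra.re_sub, QuadraticAlgebra.re_one] at h4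
    rw [QuadraticAlgebra.im_sub, QuadraticAlgebra.im_one, sub_zero] at h5
    omega
  have key : cs π ((t.natAbs : ℕ) : Ei) = 0 := by
    refine (cs_nat h (fun _ => 0) rfl (fun _ _ _ _ => (add_zero _).symm) t.natAbs
      (Int.natAbs_ne_zero.2 ht0) fun q hq hd => ?_).2.2
    have hd' : (q : ℤ) ∣ t := Int.natCast_dvd.2 hd
    have hq3 : q ≠ 3 := by
      rintro rfl
      exact ht3 hd'
    have hqp : q ≠ p := by
      rintro rfl
      exact hpt hd'
    have hnq : ¬ π ∣ (q : Ei) := ndvd_q h hπ hp hq hqp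
    have hnq' : ¬ star π ∣ (q : Ei) := ndvd_q h' hπ' hp hq hqp
    refine ⟨hq3, hnq, ?_⟩
    -- the symbols of `π` and its conjugate are equal
    have hcong : ∀ ρ : Ei, Pq ρ → ρ ∣ (q : Ei) → nr π ≠ nr ρ → cs ρ π = cs ρ (star π) := by
      intro ρ hρ hρq hne
      have h1 : ρ ∣ (t : Ei) := dvd_trans hρq (by
        have := int_dvd_int.2 hd'
        rwa [Int.cast_natCast] at this)
      have h2 : ¬ ρ ∣ π := ndvd_of_nr hρ h (Ne.symm hne)
      have h3 : ¬ ρ ∣ star π := ndvd_of_nr hρ h' (by rw [nr_star]; exact Ne.symm hne)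
      rw [← cs_neg hρ.prime hρ.norm h3]
      apply cs_congr hρ.prime hρ.norm h2
      rw [sub_neg_eq_add, ← htr]
      exact h1
    have heq : cs π (q : Ei) = cs (star π) (q : Ei) := by
      have hm : q % 3 = 1 ∨ q % 3 = 2 := by
        have : q % 3 ≠ 0 := fun h => hq3
          ((Nat.prime_dvd_prime_iff_eq Nat.prime_three hq).1 (Nat.dvd_of_mod_eq_zero h)).symm
        omega
      rcases hm with hm | hm
      · obtain ⟨ρ, hρ, hρq⟩ := exists_pq hq hm
        have hne : nr π ≠ nr ρ := by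
          rw [hπ, hρq]
          exact_mod_cast hqp.symm
        have hne' : nr (star π) ≠ nr ρ := by rwa [nr_star]
        have hρ' := pq_star hρ
        rw [cs_split h hρ hne hρq, cs_split h' hρ hne' hρq,
          hcong ρ hρ ⟨star ρ, by rw [mul_star, hρq, Int.cast_natCast]⟩ hne,
          hcong (star ρ) hρ' ⟨ρ, by rw [mul_comm, mul_star, hρq, Int.cast_natCast]⟩
            (by rwa [nr_star])]
      · have hq' := inert hq hm
        have hne := p_ne_sq hp hπ hq
        have hne' : nr (star π) ≠ nr (-(q : Ei)) := by rwa [nr_star]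
        rw [cs_inr h hq' hne, cs_inr h' hq' hne', hcong _ hq' (neg_dvd.2 dvd_rfl) hne]
    have h5 := cs_star_int h (n := (q : ℤ)) (by rwa [Int.cast_natCast])
    rw [Int.cast_natCast] at h5
    rw [h5] at heq
    revert heq
    generalize cs π (q : Ei) = c
    revert c
    decide
  have hta : ¬ π ∣ ((t.natAbs : ℕ) : Ei) := by
    intro h1
    apply hnt
    have : ((t.natAbs : ℕ) : Ei) ∣ (t : Ei) := by
      have h2 : ((t.natAbs : ℕ) : ℤ) ∣ t := Int.natAbs_dvd.2 dvd_rfl
      have := int_dvd_int.2 h2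
      rwa [Int.cast_natCast] at this
    exact dvd_trans h1 this
  have h6 := cs_natAbs h hta
  rw [key] at h6
  rw [← h6]
  apply cs_congr h.prime h.norm hns
  rw [htr]
  exact ⟨-1, by ring⟩

/-- `(n² - 1) / 3` -/
def FF (n : ℕ) : ZMod 3 := (((n ^ 2 - 1) / 3 : ℕ) : ZMod 3)

lemma sq_three {n : ℕ} (h3 : ¬ 3 ∣ n) : ∃ u : ℕ, n ^ 2 = 3 * u + 1 := by
  have h1 : n % 3 = 1 ∨ n % 3 = 2 := by omega
  rcases h1 with h1 | h1
  · obtain ⟨k, hk⟩ : ∃ k, n = 3 * k + 1 := ⟨n / 3, by omega⟩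
    exact ⟨3 * k ^ 2 + 2 * k, by rw [hk]; ring⟩
  · obtain ⟨k, hk⟩ : ∃ k, n = 3 * k + 2 := ⟨n / 3, by omega⟩
    exact ⟨3 * k ^ 2 + 4 * k + 1, by rw [hk]; ring⟩

lemma FF_of {n u : ℕ} (h : n ^ 2 = 3 * u + 1) : FF n = u := by
  unfold FF
  rw [h, Nat.add_sub_cancel, Nat.mul_div_cancel_left _ (by norm_num)]

lemma FF_mul (m n : ℕ) (hm : ¬ 3 ∣ m) (hn : ¬ 3 ∣ n) : FF (m * n) = FF m + FF n := by
  obtain ⟨u, hu⟩ := sq_three hm
  obtain ⟨v, hv⟩ := sq_three hn
  have h1 : (m * n) ^ 2 = 3 * (3 * (u * v) + u + v) + 1 := by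
    rw [mul_pow, hu, hv]
    ring
  rw [FF_of hu, FF_of hv, FF_of h1]
  push_cast
  have : (3 : ZMod 3) = 0 := by decide
  rw [this, zero_mul, zero_add]

include h hp hπ in
/-- the symbol of the real part -/
lemma cs_re : cs π (π.re : Ei) = FF π.re.natAbs ∧ ¬ π ∣ (π.re : Ei) := by
  have hf : Fact p.Prime := ⟨hp⟩
  have h' := pq_star h
  have hpp : Prime (p : ℤ) := Nat.prime_iff_prime_int.1 hp
  have hre3 : ¬ (3 : ℤ) ∣ π.re := by
    have h3 := h.three
    have h3' : (((3 : ℤ) : Ei)) ∣ π - 1 := by exact_mod_cast h3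
    obtain ⟨h4, h5⟩ := int_dvd.1 h3'
    rw [QuadraticAlgebra.re_sub, QuadraticAlgebra.re_one] at h4
    omega
  have hnr : π.re ^ 2 - π.re * π.im + π.im ^ 2 = p := hπ
  have hcop : ∀ q : ℕ, q.Prime → (q : ℤ) ∣ π.re → ¬ (q : ℤ) ∣ π.im := by
    intro q hq h1 h2
    obtain ⟨c, hc⟩ := h1
    obtain ⟨d, hd⟩ := h2
    have h3 : (p : ℤ) = q ^ 2 * (c ^ 2 - c * d + d ^ 2) := by
      rw [← hnr, hc, hd]
      ring
    have h4 : ((q ^ 2 : ℕ) : ℤ) ∣ (p : ℤ) := ⟨_, by push_cast; exact h3⟩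
    have h5 : q ^ 2 ∣ p := by exact_mod_cast h4
    rcases (Nat.dvd_prime hp).1 h5 with h6 | h6
    · have := hq.one_lt
      nlinarith
    · rw [← h6] at hp
      exact Nat.Prime.not_prime_pow (le_refl 2) hp
  have hpre : ¬ (p : ℤ) ∣ π.re := by
    intro h1
    apply hcop p hp h1
    have h2 : (p : ℤ) ∣ π.im ^ 2 := by
      have e : π.im ^ 2 = p - π.re * (π.re - π.im) := by rw [← hnr]; ring
      rw [e]
      exact dvd_sub dvd_rfl (Dvd.dvd.mul_right h1 _)
    exact hpp.dvd_of_dvd_pow h2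
  have hre0 : π.re ≠ 0 := fun h0 => hpre (by rw [h0]; exact dvd_zero _)
  have hnre : ¬ π ∣ (π.re : Ei) := int_ndvd hπ hpre
  have heta : π = (π.re : Ei) + (π.im : Ei) * w := eta π
  obtain ⟨k1, -, k2⟩ := cs_nat h FF (by decide) FF_mul π.re.natAbs (Int.natAbs_ne_zero.2 hre0)
    (fun q hq hd => by
      have hd' : (q : ℤ) ∣ π.re := Int.natCast_dvd.2 hd
      have hq3 : q ≠ 3 := by
        rintro rfl
        exact hre3 hd'
      have hqp : q ≠ p := by
        rintro rfl
        exact hpre hd'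
      have hnq : ¬ π ∣ (q : Ei) := ndvd_q h hπ hp hq hqp
      refine ⟨hq3, hnq, ?_⟩
      have hqim := hcop q hq hd'
      -- reduction
      have hred : ∀ ρ : Ei, Pq ρ → ρ ∣ (q : Ei) → ¬ ρ ∣ (π.im : Ei) → nr π ≠ nr ρ →
          cs ρ π = cs ρ (π.im : Ei) + nn ρ := by
        intro ρ hρ hρq hρi hne
        have h2 : ¬ ρ ∣ π := ndvd_of_nr hρ h (Ne.symm hne)
        have h1 : ρ ∣ (π.re : Ei) := dvd_trans hρq (by
          have := int_dvd_int.2 hd'
          rwa [Int.cast_natCast] at this)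
        rw [← cs_w hρ, ← cs_mul' hρ hρi (ndvd_w hρ)]
        apply cs_congr hρ.prime hρ.norm h2
        have e : π - (π.im : Ei) * w = (π.re : Ei) := by
          conv_lhs => rw [heta]
          simp [w_re, w_im]
        rw [e]
        exact h1
      have hm : q % 3 = 1 ∨ q % 3 = 2 := by
        have : q % 3 ≠ 0 := fun h => hq3
          ((Nat.prime_dvd_prime_iff_eq Nat.prime_three hq).1 (Nat.dvd_of_mod_eq_zero h)).symm
        omega
      rcases hm with hm | hm
      · obtain ⟨ρ, hρ, hρq⟩ := exists_pq hq hm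
        have hfq : Fact q.Prime := ⟨hq⟩
        have hne : nr π ≠ nr ρ := by
          rw [hπ, hρq]
          exact_mod_cast hqp.symm
        have hρ' := pq_star hρ
        have hi1 : ¬ ρ ∣ (π.im : Ei) := int_ndvd hρq hqim
        have hi2 : ¬ star ρ ∣ (π.im : Ei) := int_ndvd (by rw [nr_star, hρq]) hqim
        have hnn : nn (star ρ) = nn ρ := by
          unfold nn
          rw [nr_star]
        rw [cs_split h hρ hne hρq,
          hred ρ hρ ⟨star ρ, by rw [mul_star, hρq, Int.cast_natCast]⟩ hi1 hne,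
          hred (star ρ) hρ' ⟨ρ, by rw [mul_comm, mul_star, hρq, Int.cast_natCast]⟩ hi2
            (by rwa [nr_star]), cs_star_int hρ hi1, hnn]
        obtain ⟨u, hu⟩ : ∃ u, q = 3 * u + 1 := ⟨q / 3, by omega⟩
        have h1 : nn ρ = u := by
          unfold nn
          rw [hρq, Int.natAbs_natCast, hu, Nat.add_sub_cancel,
            Nat.mul_div_cancel_left _ (by norm_num)]
        have h2 : FF q = ((3 * u ^ 2 + 2 * u : ℕ) : ZMod 3) := FF_of (by rw [hu]; ring)
        rw [h1, h2]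
        push_cast
        have h3 : (3 : ZMod 3) = 0 := by decide
        linear_combination (-(u : ZMod 3) ^ 2) * h3
      · have hfq : Fact q.Prime := ⟨hq⟩
        have hq' := inert hq hm
        have hne := p_ne_sq hp hπ hq
        have hi1 : ¬ -(q : Ei) ∣ (π.im : Ei) := by
          rw [neg_dvd]
          intro h1
          apply hqim
          rw [← int_dvd_int, Int.cast_natCast]
          exact h1
        rw [cs_inr h hq' hne, hred _ hq' (neg_dvd.2 dvd_rfl) hi1 hne, cs_inert hm hq' hqim, zero_add]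
        unfold nn FF
        rw [nr_neg, nr_nat, Int.natAbs_pow, Int.natAbs_natCast])
  refine ⟨?_, hnre⟩
  rw [cs_natAbs h k1, k2]

include h hp hπ in
/-- the supplementary law for the split primes -/
lemma sup_split : cs π 3 = yy π := by
  have hf : Fact p.Prime := ⟨hp⟩
  have h' := pq_star h
  have hpp : Prime (p : ℤ) := Nat.prime_iff_prime_int.1 hp
  obtain ⟨k1, k2⟩ := cs_re h hp hπ
  have heta : π = (π.re : Ei) + (π.im : Ei) * w := eta π
  have hnim : ¬ π ∣ (π.im : Ei) := by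
    intro h1
    apply k2
    have e : (π.re : Ei) = π - (π.im : Ei) * w := by
      conv_rhs => rw [heta]
      simp [w_re, w_im]
    rw [e]
    exact dvd_sub dvd_rfl (Dvd.dvd.mul_right h1 _)
  have hn3 : ¬ π ∣ (3 : Ei) := h.norm
  set s : Ei := 1 + 2 * w with hs
  have hs2 : s * s = -3 := by
    rw [hs]
    decide
  have hns : ¬ π ∣ s := by
    intro h1
    apply hn3
    rw [← dvd_neg, ← hs2]
    exact Dvd.dvd.mul_right h1 _
  have c3 : cs π 3 = cs π s + cs π s := by
    rw [← cs_mul' h hns hns, hs2, cs_neg h.prime h.norm hn3]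
  -- the conjugate
  have c4 : cs π (π.im : Ei) + cs π s = 0 := by
    have hbs : ¬ π ∣ (π.im : Ei) * s := fun h1 => (h.prime.dvd_or_dvd h1).elim hnim hns
    rw [← cs_mul' h hnim hns, ← cs_conj h hp hπ, ← cs_neg h.prime h.norm hbs]
    apply cs_congr h.prime h.norm (fun h1 => hbs ((dvd_neg).1 h1))
    refine ⟨-1, ?_⟩
    have e1 : star π = (π.re : Ei) + (π.im : Ei) * (-1 - w) := by
      apply QuadraticAlgebra.ext
      · rw [star_re]
        simp [mul_re, w_re, w_im, QuadraticAlgebra.re_one, QuadraticAlgebra.im_one]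
        try ring
      · rw [star_im]
        simp [mul_im, w_re, w_im, QuadraticAlgebra.re_one, QuadraticAlgebra.im_one]
        try ring
    rw [e1, hs]
    conv_rhs => rw [heta]
    simp [w_re, w_im]
    ring
  -- the real part
  have c5 : cs π (π.re : Ei) = cs π (π.im : Ei) + nn π := by
    rw [← cs_w h, ← cs_mul' h hnim (ndvd_w h)]
    have hbw : ¬ π ∣ (π.im : Ei) * w := fun h1 => (h.prime.dvd_or_dvd h1).elim hnim (ndvd_w h)
    rw [← cs_neg h.prime h.norm hbw]
    apply cs_congr h.prime h.norm k2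
    rw [sub_neg_eq_add, ← heta]
  -- the computation modulo nine
  have h3 := h.three
  have h3' : (((3 : ℤ) : Ei)) ∣ π - 1 := by exact_mod_cast h3
  obtain ⟨⟨x, hx⟩, ⟨y, hy⟩⟩ := int_dvd.1 h3'
  rw [QuadraticAlgebra.re_sub, QuadraticAlgebra.re_one] at hx
  rw [QuadraticAlgebra.im_sub, QuadraticAlgebra.im_one, sub_zero] at hy
  have hx' : π.re = 1 + 3 * x := by linarith
  have hnr : π.re ^ 2 - π.re * π.im + π.im ^ 2 = p := hπ
  have hre3 : ¬ 3 ∣ π.re.natAbs := by
    intro h1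
    have : (3 : ℤ) ∣ π.re := Int.natCast_dvd.2 h1
    omega
  obtain ⟨u, hu⟩ := sq_three hre3
  have hu' : π.re ^ 2 = 3 * (u : ℤ) + 1 := by
    have : ((π.re.natAbs : ℕ) : ℤ) ^ 2 = 3 * (u : ℤ) + 1 := by exact_mod_cast hu
    rw [Int.natCast_natAbs, sq_abs] at this
    exact this
  have hv : (p : ℤ) = 3 * (nn π : ℤ) + 1 := by
    have h9 := Pool.Agent.Y715.T.RecC.nr_nn h.prime h.norm
    rw [hπ, Int.natAbs_natCast] at h9
    exact_mod_cast h9
  rw [FF_of hu] at k1
  have hyy : yy π = (y : ZMod 3) := by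
    unfold yy
    rw [hy, Int.mul_ediv_cancel_left _ (by norm_num)]
  have huv : (u : ℤ) - nn π = y + 3 * (x * y - y ^ 2) := by
    have h10 : (3 : ℤ) * ((u : ℤ) - nn π) = 3 * (y + 3 * (x * y - y ^ 2)) := by
      have : (3 : ℤ) * u - 3 * nn π = π.re * π.im - π.im ^ 2 := by
        linarith
      rw [hx', hy] at this
      linear_combination this
    exact mul_left_cancel₀ (by norm_num) h10
  have huv' := congrArg (fun z : ℤ => (z : ZMod 3)) huv
  push_cast at huv'
  have h30 : (3 : ZMod 3) = 0 := by decide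
  rw [h30, zero_mul, add_zero] at huv'
  rw [hyy, ← huv', c3]
  rw [k1] at c5
  linear_combination 2 * c4 - c5 - (cs π (π.im : Ei)) * h30

end split

/-- CT3-SUP -/
theorem t_SUP : S_SUP := by
  intro π h
  obtain ⟨l, hl, hd, hn | hn⟩ := exists_p h.prime
  · exact sup_split h hl hn
  · -- `π` is a rational integer
    obtain ⟨c, hc⟩ := hd
    have h1 : nr π * nr c = (l : ℤ) ^ 2 := by rw [← nr_mul, ← hc, nr_nat]
    have hl0 : (l : ℤ) ≠ 0 := by exact_mod_cast hl.ne_zero
    have h2 : nr c = 1 := by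
      rw [hn] at h1
      exact mul_left_cancel₀ (pow_ne_zero 2 hl0) (by rw [h1, mul_one])
    have hcu : IsUnit c := isUnit_iff.2 h2
    have has : Associated π (l : Ei) := ⟨hcu.unit, by rw [hcu.unit_spec, hc]⟩
    have hl3 : l ≠ 3 := by
      rintro rfl
      exact h.norm has.dvd
    have hm : l % 3 = 1 ∨ l % 3 = 2 := by
      have : l % 3 ≠ 0 := fun h => hl3
        ((Nat.prime_dvd_prime_iff_eq Nat.prime_three hl).1 (Nat.dvd_of_mod_eq_zero h)).symm
      omega
    rcases hm with hm | hm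
    · exfalso
      obtain ⟨α, hα, hnα⟩ := exists_pq hl hm
      have h4 : α ∣ (l : Ei) := ⟨star α, by rw [mul_star, hnα, Int.cast_natCast]⟩
      have h5 : Associated α (l : Ei) := hα.prime.associated_of_dvd (has.prime h.prime) h4
      have h6 := (ns_of_assoc h5).2
      rw [hnα, nr_nat] at h6
      have h7 : l = l ^ 2 := by exact_mod_cast h6
      have := hl.one_lt
      nlinarith
    · have hfl : Fact l.Prime := ⟨hl⟩
      have hq := inert hl hm
      have h4 : Associated π (-(l : Ei)) := has.trans (Associated.neg_right (Associated.refl _))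
      have h5 := (ns_of_assoc h4).1
      rw [ns_of_prim h.three, ns_of_prim hq.three] at h5
      rw [h5]
      have h6 : ¬ (l : ℤ) ∣ 3 := by
        intro h7
        have h8 : l ∣ 3 := by exact_mod_cast h7
        exact hl3 ((Nat.prime_dvd_prime_iff_eq hl Nat.prime_three).1 h8)
      have h7 := cs_inert hm hq h6
      have h8 : (((3 : ℤ) : Ei)) = 3 := by norm_num
      rw [h8] at h7
      rw [h7]
      unfold yy
      have h9 : (-(l : Ei)).im = 0 := by
        rw [QuadraticAlgebra.im_neg, QuadraticAlgebra.im_natCast, neg_zero]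
      rw [h9]
      rfl

end Pool.Agent.E8helper2.CT3
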